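import Pool.Agent.TH756.PR.Fin

/-!
Abelian covers of a product of projective spaces over a product of arrangements.
-/

set_option autoImplicit false

open FF Module Pool.Agent.W603.LV Pool.Agent.W602.GT Pool.Agent.W602.Cov Pool.Agent.W602.Cov.G
open Pool.Agent.W168.CG.PGR Pool.Agent.TH152.AC Pool.Agent.TH756.AR

namespace Pool.Agent.TH756.PR

variable {r N Q R : ℕ} {n q : Fin r → ℕ} (e : ((i : Fin r) × Fin (n i)) ≃ Fin N)
  (e' : ((i : Fin r) × Fin (q i)) ≃ Fin Q) {ℓ : ∀ i, Fin (q i) → Form (n i)}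
  {K : Type} [Field K] [Algebra ℂ K] {z : Fin (N + 1) → K} {y : Fin R → K}

/-- the coordinates of the factors -/
def cc (z : Fin (N + 1) → K) (i : Fin r) (j : Fin (n i + 1)) : K := z (pos e i j)

theorem cc_zero (i : Fin r) : cc e z i 0 = z 0 := rfl

theorem uu_cc : uu e (cc e z) = fun b : Fin N => z b.succ / z 0 := by
  funext b
  unfold uu aff
  have h1 : cc e z (e.symm b).1 (e.symm b).2.succ = z (e (e.symm b)).succ := rfl
  rw [h1, Equiv.apply_symm_apply]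
  rfl

theorem exists_zero {n q : ℕ} {ℓ : Fin q → Form n}
    (hspan : Submodule.span ℂ (Set.range ℓ) = ⊤) {v : Fin q → ℕ}
    (hsp : Submodule.span ℂ (ℓ '' {k | v k ≠ 0}) ≠ ⊤) : ∃ k, v k = 0 := by
  by_contra hcon
  push Not at hcon
  apply hsp
  rw [← hspan]
  congr 1
  ext φ
  constructor
  · rintro ⟨k, -, rfl⟩
    exact ⟨k, rfl⟩
  · rintro ⟨k, rfl⟩
    exact ⟨k, hcon k, rfl⟩

/-- the multiplicities at the places are compatible with the equations -/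
theorem compatP (hr : 1 ≤ r) (X : Cover N Q R) (hF : X.Free) (hK : X.FunctionField K z y)
    (hX : ∀ i k, X.ℓ (e' ⟨i, k⟩) = lift e i (ℓ i k))
    (hdeg : ∀ j i, X.m j ∣ ∑ k, X.e j (e' ⟨i, k⟩))
    (hspan : ∀ i, Submodule.span ℂ (Set.range (ℓ i)) = ⊤) (P : Place ℂ K) (a : Fin r → ℤ)
    (v : ∀ i, Fin (q i) → ℕ) (hord : ∀ i k, P.ord (lf (ℓ i k) (cc e z i)) = a i + v i k)
    (hsp : ∀ i, Submodule.span ℂ (ℓ i '' {k | v i k ≠ 0}) ≠ ⊤) :
    (∀ i, ∃ x : Fin (n i + 1) → ℂ, x ≠ 0 ∧ ∀ k, v i k ≠ 0 → ℓ i k x = 0) ∧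
      ∀ j, X.m j ∣ ∑ i, ∑ k, X.e j (e' ⟨i, k⟩) * v i k := by
  have : Nonempty (Fin r) := ⟨⟨0, hr⟩⟩
  refine ⟨fun i => ?_, fun j => ?_⟩
  · obtain ⟨xb, hxb0, hxb⟩ := Pool.Agent.W33.CG.FRE.exists_common (ℓ i) {k | v i k ≠ 0} (hsp i)
    exact ⟨xb, hxb0, fun k hk => hxb k hk⟩
  · obtain ⟨i0, -, hmin⟩ := Finset.exists_min_image Finset.univ a Finset.univ_nonempty
    obtain ⟨k0, hk0⟩ := exists_zero (hspan i0) (hsp i0)
    have hne := (coords X hK).1
    obtain ⟨w, hw⟩ : ∃ w : Fin r → ℕ, ∀ i, (w i : ℤ) = a i - a i0 :=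
      ⟨fun i => (a i - a i0).toNat, fun i =>
        Int.toNat_of_nonneg (by linarith [hmin i (Finset.mem_univ i)])⟩
    let V' : ((i : Fin r) × Fin (q i)) → ℕ := fun s => w s.1 + v s.1 s.2
    let V : Fin Q → ℕ := fun b => V' (e'.symm b)
    have hV : ∀ i k, V (e' ⟨i, k⟩) = w i + v i k := by
      intro i k
      exact congrArg V' (e'.symm_apply_apply ⟨i, k⟩)
    have hordV : ∀ b, P.ord (lf (X.ℓ b) z) = a i0 + V b := by
      intro b
      obtain ⟨⟨i, k⟩, rfl⟩ := e'.surjective b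
      rw [hX, lf_lift, hV]
      have h1 := hord i k
      have h2 : (fun j => z (pos e i j)) = cc e z i := rfl
      rw [h2, h1]
      push_cast
      rw [hw]
      ring
    have hspV : Submodule.span ℂ (X.ℓ '' {b | V b ≠ 0}) ≠ ⊤ := by
      intro htop
      have h3 := ge_span P (a i0 + 1) (X.ℓ '' {b | V b ≠ 0}) z (by
        rintro _ ⟨b, hb, rfl⟩
        right
        rw [hordV b]
        have : V b ≠ 0 := hb
        omega) (X.ℓ (e' ⟨i0, k0⟩)) (by rw [htop]; trivial)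
      rcases h3 with h3 | h3
      · exact hne _ h3
      · rw [hordV, hV, hk0] at h3
        have h4 : w i0 = 0 := by
          have := hw i0
          omega
        rw [h4] at h3
        push_cast at h3
        linarith
    have h5 := (compat X hF hK hne P (a i0) V hordV hspV).2 j
    have h6 : ∑ b, X.e j b * V b = ∑ i, w i * ∑ k, X.e j (e' ⟨i, k⟩) +
        ∑ i, ∑ k, X.e j (e' ⟨i, k⟩) * v i k := by
      rw [← Equiv.sum_comp e', Fintype.sum_sigma, ← Finset.sum_add_distrib]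
      refine Finset.sum_congr rfl fun i _ => ?_
      rw [Finset.mul_sum, ← Finset.sum_add_distrib]
      refine Finset.sum_congr rfl fun k _ => ?_
      rw [hV]
      ring
    rw [h6] at h5
    exact (Nat.dvd_add_right (Finset.dvd_sum fun i _ =>
      Dvd.dvd.mul_left (hdeg j i) (w i))).1 h5

/-- the multiplicities of the cover -/
def MultP (X : Cover N Q R) (e' : ((i : Fin r) × Fin (q i)) ≃ Fin Q)
    (ℓ : ∀ i, Fin (q i) → Form (n i)) (S : (∀ i, Fin (q i) → ℕ) → Prop) : Prop :=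
  ∀ v : ∀ i, Fin (q i) → ℕ, (∃ i, v i ≠ 0) →
    (∀ i, ∃ x : Fin (n i + 1) → ℂ, x ≠ 0 ∧ ∀ k, v i k ≠ 0 → ℓ i k x = 0) →
    (∀ j, X.m j ∣ ∑ i, ∑ k, X.e j (e' ⟨i, k⟩) * v i k) → S v

theorem basis_cc (X : Cover N Q R) (hK : X.FunctionField K z y) :
    IsTranscendenceBasis ℂ (uu e (cc e z)) := by
  rw [uu_cc]
  exact (coords X hK).2.2

theorem forms_ne {X : Cover N Q R} (hX : ∀ i k, X.ℓ (e' ⟨i, k⟩) = lift e i (ℓ i k)) (i : Fin r)
    (k : Fin (q i)) : ℓ i k ≠ 0 := by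
  intro h
  apply X.hℓ (e' ⟨i, k⟩)
  rw [hX, h]
  ext z
  simp [lift_apply]

/-- **Nonvanishing for covers.** -/
theorem tfaeP0 (hr : 1 ≤ r) (hn : ∀ i, 1 ≤ n i) (X : Cover N Q R) (hF : X.Free)
    (hK : X.FunctionField K z y) (hX : ∀ i k, X.ℓ (e' ⟨i, k⟩) = lift e i (ℓ i k))
    (h0 : ∀ i, ∃ (k : Fin (q i)) (c : ℂ), ℓ i k = c • LinearMap.proj 0)
    (hdeg : ∀ j i, X.m j ∣ ∑ k, X.e j (e' ⟨i, k⟩)) (d : Fin r → ℕ)
    (hd : ∀ i, Bnd (ℓ i) (d i))
    (h : MultP X e' ℓ fun v => ∃ k : ∀ i, Fin (q i), (1 : ℚ) ≤ ∑ i, (v i (k i) : ℚ) / d i) :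
    [KodGe ℂ K N (fun _ => False) 0, Psef ℂ K N (fun _ => False), ¬ Ruled ℂ K,
      ∀ i, ¬ Reducible (ℓ i)].TFAE := by
  obtain ⟨h1, h2, h3⟩ := coords X hK
  tfae_have 1 → 2 := fun hk => psef_of_kodGe hk
  tfae_have 2 → 3 := fun hp hr => not_psef_of_ruled (trdeg_of_basis h3) hr hp
  tfae_have 3 → 4 := fun hu i hi => hu (ruled X hF hK (reducible_lift e e' hX h0 hi))
  tfae_have 4 → 1 := fun hi => by
    have hspan : ∀ i, Submodule.span ℂ (Set.range (ℓ i)) = ⊤ := fun i =>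
      Pool.Agent.W392.CG.span_top (hn i) (ℓ i) (hi i)
    refine kodGe_zeroP e (x := cc e z) d (fun i => ?_) hspan (fun i =>
      slack_of_bnd (hn i) (forms_ne e e' hX i) (hi i) (hd i)) (fun i k => ?_) (fun i => h2)
      (basis_cc e X hK) _ fun P _ _ a v hord hsp hv => ?_
    · rcases hd i with h' | h' <;> omega
    · have h4 := h1 (e' ⟨i, k⟩)
      rw [hX, lf_lift] at h4
      exact h4
    · obtain ⟨h5, h6⟩ := compatP e e' hr X hF hK hX hdeg hspan P a v hord hsp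
      exact h v hv h5 h6
  tfae_finish

/-- **General type for covers.** -/
theorem tfaeP1 (hr : 1 ≤ r) (hn : ∀ i, 1 ≤ n i) (X : Cover N Q R) (hF : X.Free)
    (hK : X.FunctionField K z y) (hX : ∀ i k, X.ℓ (e' ⟨i, k⟩) = lift e i (ℓ i k))
    (h0 : ∀ i, ∃ (k : Fin (q i)) (c : ℂ), ℓ i k = c • LinearMap.proj 0)
    (hdeg : ∀ j i, X.m j ∣ ∑ k, X.e j (e' ⟨i, k⟩)) (d : Fin r → ℕ)
    (hd : ∀ i, Bnd (ℓ i) (d i))
    (h : MultP X e' ℓ fun v => ∃ k : ∀ i, Fin (q i), (1 : ℚ) < ∑ i, (v i (k i) : ℚ) / d i) :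
    [Psef ℂ K N (fun _ => False), GeneralType ℂ K N, ¬ Ruled ℂ K,
      ∀ i, ¬ Reducible (ℓ i)].TFAE := by
  obtain ⟨h1, h2, h3⟩ := coords X hK
  tfae_have 2 → 1 := fun hg => psef_of_kodGe (kod_of_general hg)
  tfae_have 1 → 3 := fun hp hr => not_psef_of_ruled (trdeg_of_basis h3) hr hp
  tfae_have 3 → 4 := fun hu i hi => hu (ruled X hF hK (reducible_lift e e' hX h0 hi))
  tfae_have 4 → 2 := fun hi => by
    have hspan : ∀ i, Submodule.span ℂ (Set.range (ℓ i)) = ⊤ := fun i =>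
      Pool.Agent.W392.CG.span_top (hn i) (ℓ i) (hi i)
    refine general_of_log (logGeneralP e (x := cc e z) d (fun i => ?_) hspan (fun i =>
      slack_of_bnd (hn i) (forms_ne e e' hX i) (hi i) (hd i)) (fun i k => ?_) (fun i => h2)
      (basis_cc e X hK) _ fun P _ _ a v hord hsp hv => ?_)
    · rcases hd i with h' | h' <;> omega
    · have h4 := h1 (e' ⟨i, k⟩)
      rw [hX, lf_lift] at h4
      exact h4
    · obtain ⟨h5, h6⟩ := compatP e e' hr X hF hK hX hdeg hspan P a v hord hsp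
      exact h v hv h5 h6
  tfae_finish

end Pool.Agent.TH756.PR
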