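import Pool.Agent.TH756.PR.Om
import Mathlib.LinearAlgebra.Matrix.Block

/-!
The canonical form of a product of projective spaces in other homogeneous coordinates.
-/

set_option autoImplicit false

open FF Module Pool.Agent.W603.LV Pool.Agent.W602.GT Pool.Agent.W602.Cov Pool.Agent.W602.Cov.G
open Pool.Agent.W168.CG.PGR Pool.Agent.TH152.AC

namespace Pool.Agent.TH756.PR

variable {r N : ℕ} {n : Fin r → ℕ} {K : Type} [Field K] [Algebra ℂ K]

/-- other homogeneous coordinates -/
noncomputable def chg (c : ∀ i, Matrix (Fin (n i + 1)) (Fin (n i + 1)) ℂ)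
    (x : ∀ i, Fin (n i + 1) → K) (i : Fin r) (j : Fin (n i + 1)) : K :=
  ∑ l, algebraMap ℂ K (c i j l) * x i l

/-- a derivation in terms of the dual basis -/
theorem der_expand {t : Fin N → K} (ht : IsTranscendenceBasis ℂ t)
    {D0 : Fin N → Derivation ℂ K K} (hD0 : (Matrix.of fun a b => D0 a (t b)) = 1)
    (E : Derivation ℂ K K) (g : K) : E g = ∑ c, E (t c) * D0 c g := by
  have h1 : E = ∑ c, E (t c) • D0 c := by
    refine der_ext t ht fun b => ?_
    have h3 : ∀ s : Finset (Fin N), (∑ k ∈ s, E (t k) • D0 k) (t b) =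
        ∑ k ∈ s, E (t k) * D0 k (t b) := by
      intro s
      induction s using Finset.induction_on with
      | empty => simp
      | insert a s ha ih =>
        rw [Finset.sum_insert ha, Finset.sum_insert ha, Derivation.add_apply, ih,
          Derivation.smul_apply, smul_eq_mul]
    rw [h3]
    have h4 : ∀ c, D0 c (t b) = if c = b then 1 else 0 := by
      intro c
      have := congrFun (congrFun hD0 c) b
      rw [Matrix.of_apply, Matrix.one_apply] at this
      exact this
    simp [h4]
  have h3 : ∀ s : Finset (Fin N), (∑ k ∈ s, E (t k) • D0 k) g =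
      ∑ k ∈ s, E (t k) * D0 k g := by
    intro s
    induction s using Finset.induction_on with
    | empty => simp
    | insert a s ha ih =>
      rw [Finset.sum_insert ha, Finset.sum_insert ha, Derivation.add_apply, ih,
        Derivation.smul_apply, smul_eq_mul]
  conv_lhs => rw [h1]
  exact h3 _

variable (e : ((i : Fin r) × Fin (n i)) ≃ Fin N)

theorem aff_const {D : Derivation ℂ K K} {x : ∀ i, Fin (n i + 1) → K} {i : Fin r}
    (hx0 : x i 0 ≠ 0) (hD : ∀ l : Fin (n i), D (aff x ⟨i, l⟩) = 0)
    (c : ∀ i, Matrix (Fin (n i + 1)) (Fin (n i + 1)) ℂ) (j : Fin (n i + 1)) :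
    D (chg c x i j / x i 0) = 0 := by
  have h1 : chg c x i j / x i 0 = ∑ l, algebraMap ℂ K (c i j l) * (x i l / x i 0) := by
    unfold chg
    rw [Finset.sum_div]
    exact Finset.sum_congr rfl fun l _ => by rw [mul_div_assoc]
  have h2 : ∀ l, D (x i l / x i 0) = 0 := by
    intro l
    refine Fin.cases ?_ (fun l => ?_) l
    · rw [div_self hx0, D.map_one_eq_zero]
    · exact hD l
  rw [h1, map_sum]
  refine Finset.sum_eq_zero fun l _ => ?_
  rw [Derivation.leibniz, h2, Derivation.map_algebraMap, smul_zero, smul_zero, add_zero]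

theorem der_div_zero {D : Derivation ℂ K K} {f g : K} (hf : D f = 0) (hg : D g = 0) :
    D (f / g) = 0 := by
  rw [Derivation.leibniz_div, hf, hg]
  simp

theorem om_change {x : ∀ i, Fin (n i + 1) → K} (hx0 : ∀ i, x i 0 ≠ 0)
    (hbas : IsTranscendenceBasis ℂ (uu e x))
    (c : ∀ i, Matrix (Fin (n i + 1)) (Fin (n i + 1)) ℂ) (hf0 : ∀ i, chg c x i 0 ≠ 0)
    (D : Fin N → Derivation ℂ K K) :
    om e D (chg c x) = algebraMap ℂ K (∏ i, (c i).det) * om e D x := by
  obtain ⟨D0, hD0⟩ := exists_dual (k := ℂ) hbas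
  have hd : ∀ a b, D0 a (uu e x b) = if a = b then 1 else 0 := by
    intro a b
    have := congrFun (congrFun hD0 a) b
    rw [Matrix.of_apply, Matrix.one_apply] at this
    exact this
  have hd' : ∀ (a b : (i : Fin r) × Fin (n i)), D0 (e a) (aff x b) = if a = b then 1 else 0 := by
    intro a b
    have h1 := hd (e a) (e b)
    unfold uu at h1
    rw [Equiv.symm_apply_apply] at h1
    rw [h1]
    simp only [EmbeddingLike.apply_eq_iff_eq]
  -- step 2
  have h2 : (Matrix.of fun a b : Fin N => D a (uu e (chg c x) b)).det =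
      (Matrix.of fun a b : Fin N => D a (uu e x b)).det *
      (Matrix.of fun a b : Fin N => D0 a (uu e (chg c x) b)).det := by
    rw [← Matrix.det_mul]
    congr 1
    ext a b
    rw [Matrix.of_apply, Matrix.mul_apply]
    exact der_expand hbas hD0 (D a) _
  -- step 3
  have h3 : (Matrix.of fun a b : Fin N => D0 a (uu e (chg c x) b)).det =
      ∏ i, (Matrix.of fun k l : Fin (n i) => D0 (e ⟨i, k⟩) (aff (chg c x) ⟨i, l⟩)).det := by
    rw [← Matrix.det_submatrix_equiv_self e]
    have hM : (Matrix.of fun a b : Fin N => D0 a (uu e (chg c x) b)).submatrix e e =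
        Matrix.of fun a b : (i : Fin r) × Fin (n i) => D0 (e a) (aff (chg c x) b) := by
      ext a b
      simp only [Matrix.submatrix_apply, Matrix.of_apply]
      unfold uu
      rw [Equiv.symm_apply_apply]
    rw [hM]
    have hzero : ∀ a b : (i : Fin r) × Fin (n i), a.1 ≠ b.1 →
        D0 (e a) (aff (chg c x) b) = 0 := by
      rintro ⟨i, k⟩ ⟨i', l⟩ hab
      have h5 : ∀ l : Fin (n i'), D0 (e ⟨i, k⟩) (aff x ⟨i', l⟩) = 0 := by
        intro l
        rw [hd', if_neg]
        intro h
        have h' : i = i' := congrArg Sigma.fst h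
        exact hab h'
      have h6 := aff_const (D := D0 (e ⟨i, k⟩)) (hx0 i') h5 c l.succ
      have h7 := aff_const (D := D0 (e ⟨i, k⟩)) (hx0 i') h5 c 0
      have h8 : aff (chg c x) ⟨i', l⟩ =
          (chg c x i' l.succ / x i' 0) / (chg c x i' 0 / x i' 0) := by
        unfold aff
        have := hx0 i'
        field_simp
      rw [h8]
      exact der_div_zero h6 h7
    rw [Matrix.BlockTriangular.det_fintype (b := Sigma.fst) (fun a b hab => by
      rw [Matrix.of_apply]
      exact hzero a b (ne_of_gt hab))]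
    refine Finset.prod_congr rfl fun i _ => ?_
    let ε : Fin (n i) ≃ {a : (i : Fin r) × Fin (n i) // a.1 = i} :=
      { toFun := fun k => ⟨⟨i, k⟩, rfl⟩
        invFun := fun a => Fin.cast (congrArg n a.2) a.1.2
        left_inv := fun k => rfl
        right_inv := fun a => by
          rcases a with ⟨⟨i', k⟩, h⟩
          have h' : i' = i := h
          subst h'
          rfl }
    rw [← Matrix.det_submatrix_equiv_self ε]
    congr 1
  -- step 4
  have h4 : ∀ i, chg c x i 0 ^ (n i + 1) *
      (Matrix.of fun k l : Fin (n i) => D0 (e ⟨i, k⟩) (aff (chg c x) ⟨i, l⟩)).det =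
      algebraMap ℂ K (c i).det * x i 0 ^ (n i + 1) := by
    intro i
    have h5 := Pool.Agent.W930.CG.bw_eq bwa (fun k => D0 (e ⟨i, k⟩)) (chg c x i) (hf0 i)
    have h6 := (bwa (n i) K).2.2 (c i) (fun k => D0 (e ⟨i, k⟩)) (x i)
    have h7 := Pool.Agent.W930.CG.bw_eq bwa (fun k => D0 (e ⟨i, k⟩)) (x i) (hx0 i)
    have h8 : (Matrix.of fun k l : Fin (n i) => D0 (e ⟨i, k⟩) (x i l.succ / x i 0)) = 1 := by
      ext k l
      rw [Matrix.of_apply, Matrix.one_apply]
      have h9 := hd' ⟨i, k⟩ ⟨i, l⟩
      unfold aff at h9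
      rw [h9]
      simp
    rw [h8, Matrix.det_one, mul_one] at h7
    rw [h7] at h6
    rw [← h6]
    exact h5.symm
  unfold om
  rw [h2, h3, map_prod, mul_comm (Matrix.det _), ← mul_assoc, ← Finset.prod_mul_distrib,
    Finset.prod_congr rfl fun i _ => h4 i, Finset.prod_mul_distrib, mul_assoc]

end Pool.Agent.TH756.PR
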