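import Pool.Agent.TH756.PR.Gen
import Pool.Agent.TH756.AR.Fin

/-!
Varieties over a product of projective spaces, and abelian covers of a product of projective
spaces.
-/

set_option autoImplicit false

open FF Module Pool.Agent.W603.LV Pool.Agent.W602.GT Pool.Agent.W602.Cov Pool.Agent.W602.Cov.G
open Pool.Agent.W602.Cov.Cover
open Pool.Agent.W168.CG.PGR Pool.Agent.TH152.AC Pool.Agent.TH756.AR

namespace Pool.Agent.TH756.PR

section ov

variable {r N : ℕ} {n : Fin r → ℕ} {K : Type} [Field K] [Algebra ℂ K]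
  (e : ((i : Fin r) × Fin (n i)) ≃ Fin N) {q : Fin r → ℕ} {ℓ : ∀ i, Fin (q i) → Form (n i)}

/-- the bounds -/
def Bnd {n q : ℕ} (ℓ : Fin q → Form n) (d : ℕ) : Prop :=
  d = n + 2 ∨ (d = n + 1 ∧ (Reducible ℓ ∨ ¬ Simplicial ℓ))

theorem slack_of_bnd {n q : ℕ} {ℓ : Fin q → Form n} {d : ℕ} (hn : 1 ≤ n) (hℓ : ∀ i, ℓ i ≠ 0)
    (hr : ¬ Reducible ℓ) (hd : Bnd ℓ d) : Slack ℓ d := by
  rcases hd with rfl | ⟨rfl, h⟩
  · exact slack_of_irred hn hℓ hr
  · exact slack_of_not_simplicial hn hℓ hr (h.resolve_left hr)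

/-- The orders `a i + v i k` are normalised. -/
def Nrm (ℓ : ∀ i, Fin (q i) → Form (n i)) (x : ∀ i, Fin (n i + 1) → K) (P : Place ℂ K)
    (a : Fin r → ℤ) (v : ∀ i, Fin (q i) → ℕ) : Prop :=
  (∀ i (φ : Form (n i)), lf φ (x i) = 0 ∨ a i ≤ P.ord (lf φ (x i))) ∧
    (∀ i, ∃ φ : Form (n i), lf φ (x i) ≠ 0 ∧ P.ord (lf φ (x i)) = a i) ∧
    ∀ i k, P.ord (lf (ℓ i k) (x i)) = a i + v i k

theorem nrm (hspan : ∀ i, Submodule.span ℂ (Set.range (ℓ i)) = ⊤) {x : ∀ i, Fin (n i + 1) → K}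
    (hlx : ∀ i k, lf (ℓ i k) (x i) ≠ 0) {P : Place ℂ K} {a : Fin r → ℤ}
    {v : ∀ i, Fin (q i) → ℕ} (hord : ∀ i k, P.ord (lf (ℓ i k) (x i)) = a i + v i k)
    (hsp : ∀ i, Submodule.span ℂ (ℓ i '' {k | v i k ≠ 0}) ≠ ⊤) : Nrm ℓ x P a v := by
  refine ⟨fun i φ => ?_, fun i => ?_, hord⟩
  · refine ge_span P (a i) (Set.range (ℓ i)) (x i) ?_ φ (by rw [hspan i]; trivial)
    rintro _ ⟨k, rfl⟩
    right
    rw [hord i]
    have : (0 : ℤ) ≤ v i k := by positivity
    linarith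
  · obtain ⟨k, hk⟩ : ∃ k, v i k = 0 := by
      by_contra hcon
      push Not at hcon
      apply hsp i
      rw [← hspan i]
      congr 1
      ext φ
      constructor
      · rintro ⟨k, -, rfl⟩
        exact ⟨k, rfl⟩
      · rintro ⟨k, rfl⟩
        exact ⟨k, hcon k, rfl⟩
    exact ⟨ℓ i k, hlx i k, by rw [hord, hk]; simp⟩

variable {x : ∀ i, Fin (n i + 1) → K}

theorem lfs_ne (hx0 : ∀ i, x i 0 ≠ 0) (hbas : IsTranscendenceBasis ℂ (aff x))
    (i : Fin r) {φ : Form (n i)} (hφ : φ ≠ 0) : lf φ (x i) ≠ 0 := by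
  refine lf_ne (hx0 i) ?_ hφ
  exact hbas.1.comp (fun j : Fin (n i) => (⟨i, j⟩ : (i : Fin r) × Fin (n i))) (fun j j' h => by
    simpa using h)

theorem basis_uu (hbas : IsTranscendenceBasis ℂ (aff x)) :
    IsTranscendenceBasis ℂ (uu e x) := hbas.comp_equiv e.symm

include e in
/-- nonvanishing for varieties over a product -/
theorem over_kodGeP (hn : ∀ i, 1 ≤ n i) (hℓ : ∀ i k, ℓ i k ≠ 0) (hr : ∀ i, ¬ Reducible (ℓ i))
    (d : Fin r → ℕ) (hd : ∀ i, Bnd (ℓ i) (d i)) (hx0 : ∀ i, x i 0 ≠ 0)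
    (hbas : IsTranscendenceBasis ℂ (aff x)) (Bd : Place ℂ K → Prop)
    (h : ∀ P : Place ℂ K, Divisorial N P → ¬ Bd P → ∀ a v, Nrm ℓ x P a v → (∃ i, v i ≠ 0) →
      ∃ k : ∀ i, Fin (q i), (1 : ℚ) ≤ ∑ i, (v i (k i) : ℚ) / d i) :
    KodGe ℂ K N Bd 0 := by
  have hspan : ∀ i, Submodule.span ℂ (Set.range (ℓ i)) = ⊤ := fun i =>
    Pool.Agent.W392.CG.span_top (hn i) (ℓ i) (hr i)
  have hlx : ∀ i k, lf (ℓ i k) (x i) ≠ 0 := fun i k => lfs_ne hx0 hbas i (hℓ i k)
  refine kodGe_zeroP e d (fun i => ?_) hspan (fun i => slack_of_bnd (hn i) (hℓ i) (hr i) (hd i))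
    hlx hx0 (basis_uu e hbas) Bd fun P hP hB a v hord hsp hv => ?_
  · rcases hd i with h' | h'
    · omega
    · omega
  · exact h P hP hB a v (nrm hspan hlx hord hsp) hv

include e in
/-- general type for varieties over a product -/
theorem over_generalP (hn : ∀ i, 1 ≤ n i) (hℓ : ∀ i k, ℓ i k ≠ 0) (hr : ∀ i, ¬ Reducible (ℓ i))
    (d : Fin r → ℕ) (hd : ∀ i, Bnd (ℓ i) (d i)) (hx0 : ∀ i, x i 0 ≠ 0)
    (hbas : IsTranscendenceBasis ℂ (aff x)) (Bd : Place ℂ K → Prop)
    (h : ∀ P : Place ℂ K, Divisorial N P → ¬ Bd P → ∀ a v, Nrm ℓ x P a v → (∃ i, v i ≠ 0) →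
      ∃ k : ∀ i, Fin (q i), (1 : ℚ) < ∑ i, (v i (k i) : ℚ) / d i) :
    LogGeneralType ℂ K N Bd := by
  have hspan : ∀ i, Submodule.span ℂ (Set.range (ℓ i)) = ⊤ := fun i =>
    Pool.Agent.W392.CG.span_top (hn i) (ℓ i) (hr i)
  have hlx : ∀ i k, lf (ℓ i k) (x i) ≠ 0 := fun i k => lfs_ne hx0 hbas i (hℓ i k)
  refine logGeneralP e d (fun i => ?_) hspan (fun i => slack_of_bnd (hn i) (hℓ i) (hr i) (hd i))
    hlx hx0 (basis_uu e hbas) Bd fun P hP hB a v hord hsp hv => ?_
  · rcases hd i with h' | h'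
    · omega
    · omega
  · exact h P hP hB a v (nrm hspan hlx hord hsp) hv

end ov

section cover

variable {r N Q R : ℕ} {n q : Fin r → ℕ} (e : ((i : Fin r) × Fin (n i)) ≃ Fin N)
  (e' : ((i : Fin r) × Fin (q i)) ≃ Fin Q) {ℓ : ∀ i, Fin (q i) → Form (n i)}

/-- the position of the coordinates of a factor -/
def pos (i : Fin r) : Fin (n i + 1) → Fin (N + 1) := Fin.cases 0 fun j => (e ⟨i, j⟩).succ

/-- a form on a factor as a form on projective `N`-space -/
noncomputable def lift (i : Fin r) (φ : Form (n i)) : Form N :=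
  φ ∘ₗ LinearMap.funLeft ℂ ℂ (pos e i)

theorem lift_apply (i : Fin r) (φ : Form (n i)) (z : Fin (N + 1) → ℂ) :
    lift e i φ z = φ fun j => z (pos e i j) := rfl

theorem pos_zero (i : Fin r) : pos e i 0 = 0 := rfl

theorem pos_succ (i : Fin r) (j : Fin (n i)) : pos e i j.succ = (e ⟨i, j⟩).succ := rfl

theorem lf_lift {K : Type} [Field K] [Algebra ℂ K] (i : Fin r) (φ : Form (n i))
    (z : Fin (N + 1) → K) : lf (lift e i φ) z = lf φ fun j => z (pos e i j) := by
  have h1 : φ = ∑ j, φ (Pi.single j 1) • (LinearMap.proj j : Form (n i)) := by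
    apply LinearMap.pi_ext'
    intro j
    apply LinearMap.ext_ring
    simp only [LinearMap.comp_apply, LinearMap.single_apply, LinearMap.sum_apply,
      LinearMap.smul_apply, LinearMap.proj_apply, smul_eq_mul]
    rw [Finset.sum_eq_single j]
    · simp
    · intro l _ hl
      rw [Pi.single_apply, if_neg hl, mul_zero]
    · intro h
      exact absurd (Finset.mem_univ _) h
  have hsum : ∀ (s : Finset (Fin (n i + 1))) (c : Fin (n i + 1) → ℂ)
      (ψ : Fin (n i + 1) → Form N), lf (∑ j ∈ s, c j • ψ j) z =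
        ∑ j ∈ s, algebraMap ℂ K (c j) * lf (ψ j) z := by
    intro s c ψ
    induction s using Finset.induction_on with
    | empty => simp [lf_zero]
    | insert a s ha ih =>
      rw [Finset.sum_insert ha, Finset.sum_insert ha, lf_add, lf_smul, ih]
  have h2 : lift e i φ = ∑ j, φ (Pi.single j 1) • (LinearMap.proj (pos e i j) : Form N) := by
    conv_lhs => rw [h1]
    ext z
    simp [lift_apply]
  rw [h2, hsum]
  unfold lf
  refine Finset.sum_congr rfl fun j _ => ?_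
  have := lf_proj (pos e i j) z
  unfold lf at this
  rw [this]

theorem pos_inj {i i' : Fin r} {j : Fin (n i)} {j' : Fin (n i' + 1)}
    (h : pos e i j.succ = pos e i' j') : i = i' := by
  revert h
  refine Fin.cases ?_ (fun j' => ?_) j'
  · intro h
    rw [pos_succ, pos_zero] at h
    exact absurd h (Fin.succ_ne_zero _)
  · intro h
    rw [pos_succ, pos_succ] at h
    have h1 := e.injective (Fin.succ_injective _ h)
    exact congrArg Sigma.fst h1

/-- If one of the arrangements is reducible, then so is the arrangement on projective `N`-space. -/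
theorem reducible_lift {X : Cover N Q R} (hX : ∀ i k, X.ℓ (e' ⟨i, k⟩) = lift e i (ℓ i k))
    (h0 : ∀ i, ∃ (k : Fin (q i)) (c : ℂ), ℓ i k = c • LinearMap.proj 0) {i : Fin r}
    (h : Reducible (ℓ i)) : Reducible X.ℓ := by
  classical
  -- the hyperplane at infinity contains one of the two summands
  obtain ⟨V₁, V₂, hV1, hV2, hc, hforms, hinf⟩ : ∃ V₁ V₂ : Submodule ℂ (Fin (n i + 1) → ℂ),
      V₁ ≠ ⊥ ∧ V₂ ≠ ⊥ ∧ IsCompl V₁ V₂ ∧
      (∀ k, (∀ x ∈ V₁, ℓ i k x = 0) ∨ (∀ x ∈ V₂, ℓ i k x = 0)) ∧ ∀ x ∈ V₂, x 0 = 0 := by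
    obtain ⟨V₁, V₂, h1, h2, h3, h4⟩ := h
    obtain ⟨k, c, hk⟩ := h0 i
    have hc : c ≠ 0 := by
      rintro rfl
      have h5 : lift e i (ℓ i k) ≠ 0 := by
        rw [← hX]
        exact X.hℓ _
      apply h5
      rw [hk]
      ext z
      simp [lift_apply]
    have hz : ∀ x, ℓ i k x = 0 → x 0 = 0 := by
      intro x hx
      rw [hk] at hx
      simpa [hc] using hx
    rcases h4 k with h5 | h5
    · exact ⟨V₂, V₁, h2, h1, h3.symm, fun k => (h4 k).symm, fun x hx => hz x (h5 x hx)⟩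
    · exact ⟨V₁, V₂, h1, h2, h3, h4, fun x hx => hz x (h5 x hx)⟩
  -- the projection and its section
  let π : (Fin (N + 1) → ℂ) →ₗ[ℂ] (Fin (n i + 1) → ℂ) := LinearMap.funLeft ℂ ℂ (pos e i)
  let sec : (Fin (n i + 1) → ℂ) →ₗ[ℂ] (Fin (N + 1) → ℂ) :=
    { toFun := fun x => Fin.cases (x 0) fun b =>
        if h : (e.symm b).1 = i then x (Fin.cast (congrArg n h) (e.symm b).2).succ else 0
      map_add' := fun x y => by
        ext b
        refine Fin.cases ?_ (fun b => ?_) b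
        · simp
        · by_cases hb : (e.symm b).1 = i
          · simp [hb]
          · simp [hb]
      map_smul' := fun c x => by
        ext b
        refine Fin.cases ?_ (fun b => ?_) b
        · simp
        · by_cases hb : (e.symm b).1 = i
          · simp [hb]
          · simp [hb] }
  have hps : ∀ x, π (sec x) = x := by
    intro x
    ext j
    refine Fin.cases ?_ (fun j => ?_) j
    · rfl
    · change (Fin.cases (x 0) (fun b => if h : (e.symm b).1 = i then
        x (Fin.cast (congrArg n h) (e.symm b).2).succ else 0) (pos e i j.succ) : ℂ) = x j.succ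
      rw [pos_succ, Fin.cases_succ]
      have h1 : e.symm (e ⟨i, j⟩) = ⟨i, j⟩ := e.symm_apply_apply _
      rw [dif_pos (by rw [h1])]
      congr 2
      apply Fin.ext
      rw [Fin.val_cast]
      exact congrArg (fun a : (i : Fin r) × Fin (n i) => (a.2 : ℕ)) h1
  have hso : ∀ x, x 0 = 0 → ∀ i', i' ≠ i → ∀ j : Fin (n i' + 1), sec x (pos e i' j) = 0 := by
    intro x hx i' hi' j
    refine Fin.cases ?_ (fun j => ?_) j
    · exact hx
    · change (Fin.cases (x 0) (fun b => if h : (e.symm b).1 = i then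
        x (Fin.cast (congrArg n h) (e.symm b).2).succ else 0) (pos e i' j.succ) : ℂ) = 0
      rw [pos_succ, Fin.cases_succ]
      have h1 : e.symm (e ⟨i', j⟩) = ⟨i', j⟩ := e.symm_apply_apply _
      rw [dif_neg]
      rw [h1]
      exact hi'
  refine ⟨V₁.comap π, V₂.map sec, ?_, ?_, ?_, fun b => ?_⟩
  · obtain ⟨x, hx, hx0⟩ := (Submodule.ne_bot_iff _).1 hV1
    rw [Submodule.ne_bot_iff]
    refine ⟨sec x, ?_, fun h => hx0 ?_⟩
    · rw [Submodule.mem_comap, hps]
      exact hx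
    · rw [← hps x, h, map_zero]
  · obtain ⟨x, hx, hx0⟩ := (Submodule.ne_bot_iff _).1 hV2
    rw [Submodule.ne_bot_iff]
    refine ⟨sec x, Submodule.mem_map_of_mem hx, fun h => hx0 ?_⟩
    rw [← hps x, h, map_zero]
  · constructor
    · rw [Submodule.disjoint_def]
      rintro z hz ⟨x, hx, rfl⟩
      rw [Submodule.mem_comap, hps] at hz
      have h1 : x = 0 := (Submodule.disjoint_def.1 hc.disjoint) x hz hx
      rw [h1, map_zero]
    · rw [codisjoint_iff, eq_top_iff]
      intro z _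
      obtain ⟨v1, hv1, v2, hv2, hv⟩ := Submodule.mem_sup.1
        (show π z ∈ V₁ ⊔ V₂ by rw [hc.sup_eq_top]; trivial)
      refine Submodule.mem_sup.2 ⟨z - sec v2, ?_, sec v2, Submodule.mem_map_of_mem hv2, by simp⟩
      rw [Submodule.mem_comap, map_sub, hps, ← hv, add_sub_cancel_right]
      exact hv1
  · obtain ⟨⟨i', k⟩, rfl⟩ := e'.surjective b
    rw [hX]
    by_cases hi' : i' = i
    · subst hi'
      rcases hforms k with h1 | h1
      · exact Or.inl fun z hz => h1 _ hz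
      · right
        rintro _ ⟨x, hx, rfl⟩
        have h2 : lift e i' (ℓ i' k) (sec x) = ℓ i' k (π (sec x)) := rfl
        rw [h2, hps]
        exact h1 x hx
    · right
      rintro _ ⟨x, hx, rfl⟩
      rw [lift_apply]
      have h2 : (fun j => sec x (pos e i' j)) = 0 := by
        funext j
        exact hso x (hinf x hx) i' hi' j
      rw [h2, map_zero]

end cover

end Pool.Agent.TH756.PR
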