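import Pool.Agent.TH756.PR.Ord

/-!
Nonvanishing and general type for varieties with a generically finite map to a product of
projective spaces.
-/

set_option autoImplicit false

open FF Module Pool.Agent.W603.LV Pool.Agent.W602.GT Pool.Agent.W602.Cov Pool.Agent.W602.Cov.G
open Pool.Agent.W168.CG.PGR Pool.Agent.TH152.AC Pool.Agent.TH756.AR

namespace Pool.Agent.TH756.PR

variable {r N : ℕ} {n : Fin r → ℕ} {K : Type} [Field K] [Algebra ℂ K]
  (e : ((i : Fin r) × Fin (n i)) ≃ Fin N) {q : Fin r → ℕ} {ℓ : ∀ i, Fin (q i) → Form (n i)}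

/-- The multiplicities at the place `P` are at least the bounds `d`. -/
def HighGe (ℓ : ∀ i, Fin (q i) → Form (n i)) (x : ∀ i, Fin (n i + 1) → K) (d : Fin r → ℕ)
    (P : Place ℂ K) : Prop :=
  ∀ (a : Fin r → ℤ) (v : ∀ i, Fin (q i) → ℕ), (∀ i k, P.ord (lf (ℓ i k) (x i)) = a i + v i k) →
    (∀ i, Submodule.span ℂ (ℓ i '' {k | v i k ≠ 0}) ≠ ⊤) → (∃ i, v i ≠ 0) →
      ∃ k : ∀ i, Fin (q i), (1 : ℚ) ≤ ∑ i, (v i (k i) : ℚ) / d i

/-- The multiplicities at the place `P` are greater than the bounds `d`. -/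
def HighGt (ℓ : ∀ i, Fin (q i) → Form (n i)) (x : ∀ i, Fin (n i + 1) → K) (d : Fin r → ℕ)
    (P : Place ℂ K) : Prop :=
  ∀ (a : Fin r → ℤ) (v : ∀ i, Fin (q i) → ℕ), (∀ i k, P.ord (lf (ℓ i k) (x i)) = a i + v i k) →
    (∀ i, Submodule.span ℂ (ℓ i '' {k | v i k ≠ 0}) ≠ ⊤) → (∃ i, v i ≠ 0) →
      ∃ k : ∀ i, Fin (q i), (1 : ℚ) < ∑ i, (v i (k i) : ℚ) / d i

theorem exists_weights (T0 : ℕ) (p : ∀ i, Bases (ℓ i) → ℕ) :
    ∃ (t : Fin r → ℕ) (T : ℕ), T = T0 * ∏ i, ∑ B, p i B ∧ ∀ i, t i * ∑ B, p i B = T := by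
  classical
  refine ⟨fun i => T0 * ∏ j ∈ Finset.univ.erase i, ∑ B, p j B, _, rfl, fun i => ?_⟩
  rw [mul_assoc, Finset.prod_erase_mul _ _ (Finset.mem_univ i)]

theorem om_reg (P : Place ℂ K) {D : Fin N → Derivation ℂ K K} (hD : ∀ a, DerReg P (D a)) :
    (∀ f : ∀ i, Fin (n i + 1) → K, (∀ i j, f i j ≠ 0) →
      Ge P ((∑ i, ∑ j, P.ord (f i j)) - (1 : ℕ)) (om e D f)) ∧
    (∀ (f : ∀ i, Fin (n i + 1) → K) (a : Fin r → ℤ), (∀ i j, f i j ≠ 0) →
      (∀ i j, P.ord (f i j) = a i) → Ge P (∑ i, ((n i : ℤ) + 1) * a i) (om e D f)) :=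
  ⟨fun _ hf => om_ge_reg e P D hD hf, fun _ a hf ha => om_ge_unit e P D hD hf a ha⟩

theorem om_log (P : Place ℂ K) {D : Fin N → Derivation ℂ K K} (hD : ∀ a, DerLog P (D a)) :
    (∀ f : ∀ i, Fin (n i + 1) → K, (∀ i j, f i j ≠ 0) →
      Ge P ((∑ i, ∑ j, P.ord (f i j)) - (0 : ℕ)) (om e D f)) ∧
    (∀ (f : ∀ i, Fin (n i + 1) → K) (a : Fin r → ℤ), (∀ i j, f i j ≠ 0) →
      (∀ i j, P.ord (f i j) = a i) → Ge P (∑ i, ((n i : ℤ) + 1) * a i) (om e D f)) :=
  ⟨fun _ hf => om_ge_log e P D hD hf, fun _ a hf ha =>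
    om_ge_unit e P D (fun i => reg_of_log (hD i)) hf a ha⟩

theorem exists_om_ne {x : ∀ i, Fin (n i + 1) → K} (hx0 : ∀ i, x i 0 ≠ 0)
    (hbas : IsTranscendenceBasis ℂ (uu e x)) :
    ∃ D : Fin N → Derivation ℂ K K, om e D x ≠ 0 := by
  obtain ⟨D, hD⟩ := exists_dual (k := ℂ) hbas
  refine ⟨D, ?_⟩
  unfold om
  rw [hD, Matrix.det_one, mul_one]
  exact Finset.prod_ne_zero_iff.2 fun i _ => pow_ne_zero _ (hx0 i)

/-- **Nonvanishing.** -/
theorem kodGe_zeroP (d : Fin r → ℕ) (hd : ∀ i, 1 ≤ d i)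
    (hspan : ∀ i, Submodule.span ℂ (Set.range (ℓ i)) = ⊤) (hsl : ∀ i, Slack (ℓ i) (d i))
    {x : ∀ i, Fin (n i + 1) → K} (hlx : ∀ i k, lf (ℓ i k) (x i) ≠ 0) (hx0 : ∀ i, x i 0 ≠ 0)
    (hbas : IsTranscendenceBasis ℂ (uu e x)) (Bd : Place ℂ K → Prop)
    (hP : ∀ P : Place ℂ K, Divisorial N P → ¬ Bd P → HighGe ℓ x d P) :
    KodGe ℂ K N Bd 0 := by
  choose p hp0 hp using hsl
  have B0 : ∀ i, Bases (ℓ i) := fun i => Classical.choice (exists_bases (hspan i))
  have k0 : ∀ i, Fin (q i) := fun i => (B0 i).1 0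
  obtain ⟨t, T, hTeq, hT⟩ := exists_weights 1 p
  have hTpos : 0 < T := by
    rw [hTeq, one_mul]
    exact Finset.prod_pos fun i _ => hp0 i
  obtain ⟨D, hD⟩ := exists_om_ne e hx0 hbas
  have hTq : (0 : ℚ) < T := by exact_mod_cast hTpos
  refine ⟨T, hTpos, fun _ => pp e ℓ x p t T, fun _ => ⟨pp_pluri e x p t T, ?_, ?_⟩, D, ?_, ?_⟩
  · intro P _ D hD
    obtain ⟨a, v, -, -, -, c, hc, hc2⟩ := pp_ord e d hd p hp hspan t T hT hlx hx0 hbas P D 0
      (om_log e P hD).1 (om_log e P hD).2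
    rw [reg_iff_ge]
    refine hc.mono ?_
    rcases hc2 with ⟨-, h⟩ | ⟨-, h⟩
    · exact h
    · have h1 := h k0
      rw [Nat.cast_zero, zero_mul, add_zero] at h1
      have h2 : (0 : ℚ) ≤ T * ∑ i, (v i (k0 i) : ℚ) / d i := by positivity
      exact_mod_cast h2.trans h1
  · intro P hPd hPB D hD
    obtain ⟨a, v, hv, -, hsp, c, hc, hc2⟩ := pp_ord e d hd p hp hspan t T hT hlx hx0 hbas P D 1
      (om_reg e P hD).1 (om_reg e P hD).2
    rw [reg_iff_ge]
    refine hc.mono ?_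
    rcases hc2 with ⟨-, h⟩ | ⟨hv0, h⟩
    · exact h
    · obtain ⟨k, hk⟩ := hP P hPd hPB a v hv hsp hv0
      have h1 := h k
      rw [Nat.cast_one, one_mul] at h1
      have h2 : (T : ℚ) * 1 ≤ T * ∑ i, (v i (k i) : ℚ) / d i :=
        mul_le_mul_of_nonneg_left hk hTq.le
      have h3 : (0 : ℚ) ≤ c := by linarith
      exact_mod_cast h3
  · unfold pp
    exact div_ne_zero (pow_ne_zero _ hD) (dens_ne hlx p t)
  · rw [algebraicIndependent_empty_type_iff]
    exact (algebraMap ℂ K).injective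

/-- the choice of the coordinates for the sections -/
def pick (b : Fin (N + 1)) : ∀ i, Fin (n i + 1) :=
  Fin.cases (fun _ => 0) (fun b => Function.update (fun _ => 0) (e.symm b).1 (e.symm b).2.succ) b

theorem pick_ratio {x : ∀ i, Fin (n i + 1) → K} (hx0 : ∀ i, x i 0 ≠ 0) {L : Fin r → K}
    (hL : ∀ i, L i ≠ 0) (b : Fin N) :
    (∏ i, x i (pick e b.succ i) / L i) / (∏ i, x i (pick e 0 i) / L i) = uu e x b := by
  rw [← Finset.prod_div_distrib]
  have h1 : ∀ i, (x i (pick e b.succ i) / L i) / (x i (pick e 0 i) / L i) =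
      x i (pick e b.succ i) / x i 0 := by
    intro i
    have h2 : pick e 0 i = 0 := rfl
    rw [h2]
    have := hx0 i
    have := hL i
    field_simp
  rw [Finset.prod_congr rfl fun i _ => h1 i, Finset.prod_eq_single (e.symm b).1]
  · have h2 : pick e b.succ (e.symm b).1 = (e.symm b).2.succ := by
      unfold pick
      simp
    rw [h2]
    rfl
  · intro i _ hi
    have h2 : pick e b.succ i = 0 := by
      unfold pick
      simp [Function.update_of_ne hi]
    rw [h2, div_self (hx0 i)]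
  · intro h
    exact absurd (Finset.mem_univ _) h

/-- **General type.** -/
theorem logGeneralP (d : Fin r → ℕ) (hd : ∀ i, 1 ≤ d i)
    (hspan : ∀ i, Submodule.span ℂ (Set.range (ℓ i)) = ⊤) (hsl : ∀ i, Slack (ℓ i) (d i))
    {x : ∀ i, Fin (n i + 1) → K} (hlx : ∀ i k, lf (ℓ i k) (x i) ≠ 0) (hx0 : ∀ i, x i 0 ≠ 0)
    (hbas : IsTranscendenceBasis ℂ (uu e x)) (Bd : Place ℂ K → Prop)
    (hP : ∀ P : Place ℂ K, Divisorial N P → ¬ Bd P → HighGt ℓ x d P) :
    LogGeneralType ℂ K N Bd := by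
  classical
  choose p hp0 hp using hsl
  have B0 : ∀ i, Bases (ℓ i) := fun i => Classical.choice (exists_bases (hspan i))
  have k0 : ∀ i, Fin (q i) := fun i => (B0 i).1 0
  obtain ⟨M, hM⟩ : ∃ M, M = ∏ i, d i := ⟨_, rfl⟩
  have hMpos : 0 < M := by
    rw [hM]
    exact Finset.prod_pos fun i _ => hd i
  obtain ⟨t, T, hTeq, hT⟩ := exists_weights (M * (M + 1)) p
  have hS : 0 < ∏ i, ∑ B, p i B := Finset.prod_pos fun i _ => hp0 i
  have hTpos : 0 < T := by
    rw [hTeq]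
    positivity
  have hTM : M * (M + 1) ≤ T := by
    rw [hTeq]
    exact Nat.le_mul_of_pos_right _ hS
  have hdM : ∀ i, d i ≤ M := by
    intro i
    rw [hM]
    exact Nat.le_of_dvd (Finset.prod_pos fun i _ => hd i) (Finset.dvd_prod_of_mem d (Finset.mem_univ i))
  obtain ⟨D, hD⟩ := exists_om_ne e hx0 hbas
  have hTq : (0 : ℚ) < T := by exact_mod_cast hTpos
  have hMq : (0 : ℚ) < M := by exact_mod_cast hMpos
  obtain ⟨L, hL⟩ : ∃ L : Fin r → K, L = fun i => lf (ℓ i (k0 i)) (x i) := ⟨_, rfl⟩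
  have hLne : ∀ i, L i ≠ 0 := fun i => by
    rw [hL]
    exact hlx i _
  -- the final estimate
  have hfin : ∀ (P : Place ℂ K) (D : Fin N → Derivation ℂ K K) (a : Fin r → ℤ) (c : ℤ)
      (v : ∀ i, Fin (q i) → ℕ) (y : ∀ i, Fin (n i + 1)),
      (∀ i k, P.ord (lf (ℓ i k) (x i)) = a i + v i k) → (∀ i j, Ge P (a i) (x i j)) →
      Ge P c (pp e ℓ x p t T D) → (∑ i, (v i (k0 i) : ℤ)) ≤ c →
      P.Reg (pp e ℓ x p t T D * ∏ i, x i (y i) / L i) := by
    intro P D a c v y h1 h2 h3 h4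
    rw [reg_iff_ge]
    have h5 : ∀ i, Ge P (-(v i (k0 i) : ℤ)) (x i (y i) / L i) := by
      intro i
      have h6 := ge_div (hLne i) (h2 i (y i))
      rw [hL] at h6
      rw [hL]
      simp only [h1] at h6
      exact h6.mono (by linarith)
    have h7 := h3.mul (Ge.prod Finset.univ (fun i => x i (y i) / L i)
      (fun i => -(v i (k0 i) : ℤ)) (fun i _ => h5 i))
    refine h7.mono ?_
    rw [Finset.sum_neg_distrib]
    linarith
  refine ⟨trdeg_of_basis hbas, T, hTpos,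
    fun b D => pp e ℓ x p t T D * ∏ i, x i (pick e b i) / L i, ?_, ?_, ?_, D, ?_, ?_⟩
  · intro b A D'
    change pp e ℓ x p t T _ * _ = _
    rw [pp_pluri e x p t T A D']
    ring
  · intro P _ b D hD
    obtain ⟨a, v, hv, hx, -, c, hc, hc2⟩ := pp_ord e d hd p hp hspan t T hT hlx hx0 hbas P D 0
      (om_log e P hD).1 (om_log e P hD).2
    refine hfin P D a c v _ hv hx hc ?_
    rcases hc2 with ⟨hv0, h⟩ | ⟨-, h⟩
    · simpa [hv0] using h
    · have h1 := h k0
      rw [Nat.cast_zero, zero_mul, add_zero, Finset.mul_sum] at h1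
      have h2 : ∑ i, (v i (k0 i) : ℚ) ≤ ∑ i, (T : ℚ) * ((v i (k0 i) : ℚ) / d i) := by
        refine Finset.sum_le_sum fun i _ => ?_
        have hdi : (0 : ℚ) < d i := by exact_mod_cast hd i
        have h3 : (d i : ℚ) ≤ T := by
          have h4 : d i ≤ T := (hdM i).trans (le_trans (Nat.le_mul_of_pos_right _ (by omega)) hTM)
          exact_mod_cast h4
        rw [mul_div_assoc', le_div_iff₀ hdi, mul_comm]
        exact mul_le_mul_of_nonneg_right h3 (by positivity)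
      exact_mod_cast h2.trans h1
  · intro P hPd hPB b D hD
    obtain ⟨a, v, hv, hx, hsp, c, hc, hc2⟩ := pp_ord e d hd p hp hspan t T hT hlx hx0 hbas P D 1
      (om_reg e P hD).1 (om_reg e P hD).2
    refine hfin P D a c v _ hv hx hc ?_
    rcases hc2 with ⟨hv0, h⟩ | ⟨hv0, h⟩
    · simpa [hv0] using h
    · obtain ⟨k1, hk1⟩ := hP P hPd hPB a v hv hsp hv0
      -- the larger one of the two multiplicities
      obtain ⟨k, hkdef⟩ : ∃ k : ∀ i, Fin (q i),
        k = fun i => if v i (k0 i) ≤ v i (k1 i) then k1 i else k0 i := ⟨_, rfl⟩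
      have hka : ∀ i, v i (k0 i) ≤ v i (k i) := by
        intro i
        rw [hkdef]
        dsimp only
        split_ifs with h'
        · exact h'
        · exact le_rfl
      have hkb : ∀ i, v i (k1 i) ≤ v i (k i) := by
        intro i
        rw [hkdef]
        dsimp only
        split_ifs with h'
        · exact le_rfl
        · omega
      have hSgt : (1 : ℚ) < ∑ i, (v i (k i) : ℚ) / d i := by
        refine lt_of_lt_of_le hk1 (Finset.sum_le_sum fun i _ => ?_)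
        have hdi : (0 : ℚ) < d i := by exact_mod_cast hd i
        exact div_le_div_of_nonneg_right (by exact_mod_cast hkb i) hdi.le
      -- integrality
      have hint : ∑ i, (v i (k i) : ℚ) / d i =
          ((∑ i, v i (k i) * ∏ j ∈ Finset.univ.erase i, d j : ℕ) : ℚ) / M := by
        push_cast
        rw [Finset.sum_div]
        refine Finset.sum_congr rfl fun i _ => ?_
        have hdi : (d i : ℚ) ≠ 0 := by
          have := hd i
          positivity
        have h5 : (M : ℚ) = (∏ j ∈ Finset.univ.erase i, (d j : ℚ)) * d i := by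
          rw [hM, ← Finset.prod_erase_mul _ _ (Finset.mem_univ i)]
          push_cast
          rfl
        have h6 : (∏ j ∈ Finset.univ.erase i, (d j : ℚ)) ≠ 0 := by
          intro h6
          rw [h6, zero_mul] at h5
          exact hMq.ne' h5
        rw [h5]
        field_simp
      have hge : (M : ℚ) + 1 ≤ M * ∑ i, (v i (k i) : ℚ) / d i := by
        rw [hint] at hSgt ⊢
        rw [lt_div_iff₀ hMq, one_mul] at hSgt
        rw [mul_div_cancel₀ _ hMq.ne']
        exact_mod_cast hSgt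
      have h1 := h k
      rw [Nat.cast_one, one_mul] at h1
      obtain ⟨S, hSdef⟩ : ∃ S : ℚ, S = ∑ i, (v i (k i) : ℚ) / d i := ⟨_, rfl⟩
      rw [← hSdef] at h1 hge
      have h2 : (T : ℚ) * S ≤ (M + 1) * c := by nlinarith
      have h3 : (((M : ℚ) + 1) * ∑ i, (v i (k0 i) : ℚ)) ≤ T * S := by
        rw [hSdef, Finset.mul_sum, Finset.mul_sum]
        refine Finset.sum_le_sum fun i _ => ?_
        have hdi : (0 : ℚ) < d i := by exact_mod_cast hd i
        rw [mul_div_assoc', le_div_iff₀ hdi]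
        have h5 : ((M : ℚ) + 1) * d i ≤ T := by
          have h6 : (M + 1) * d i ≤ T := by
            refine le_trans ?_ hTM
            rw [mul_comm]
            exact Nat.mul_le_mul_right _ (hdM i)
          exact_mod_cast h6
        have h7 : (v i (k0 i) : ℚ) ≤ v i (k i) := by exact_mod_cast hka i
        calc ((M : ℚ) + 1) * v i (k0 i) * d i = (((M : ℚ) + 1) * d i) * v i (k0 i) := by ring
          _ ≤ T * v i (k i) := mul_le_mul h5 h7 (by positivity) hTq.le
      have h4 : ((M : ℚ) + 1) * ∑ i, (v i (k0 i) : ℚ) ≤ (M + 1) * c := h3.trans h2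
      have h5 : ∑ i, (v i (k0 i) : ℚ) ≤ c := le_of_mul_le_mul_left h4 (by positivity)
      exact_mod_cast h5
  · change pp e ℓ x p t T D * ∏ i, x i (pick e 0 i) / L i ≠ 0
    refine mul_ne_zero ?_ (Finset.prod_ne_zero_iff.2 fun i _ => div_ne_zero (hx0 i) (hLne i))
    unfold pp
    exact div_ne_zero (pow_ne_zero _ hD) (dens_ne hlx p t)
  · have hpf : pp e ℓ x p t T D ≠ 0 := by
      unfold pp
      exact div_ne_zero (pow_ne_zero _ hD) (dens_ne hlx p t)
    have e1 : (fun b : Fin N => pp e ℓ x p t T D * (∏ i, x i (pick e b.succ i) / L i) /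
        (pp e ℓ x p t T D * ∏ i, x i (pick e 0 i) / L i)) = uu e x := by
      funext b
      rw [mul_div_mul_left _ _ hpf, pick_ratio e hx0 hLne]
    change AlgebraicIndependent ℂ (fun b : Fin N =>
      pp e ℓ x p t T D * (∏ i, x i (pick e b.succ i) / L i) /
        (pp e ℓ x p t T D * ∏ i, x i (pick e 0 i) / L i))
    rw [e1]
    exact hbas.1

end Pool.Agent.TH756.PR
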