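import Pool.Agent.TH756.AR.Reg

/-!
The canonical form of a product of projective spaces, with values in the determinants.
-/

set_option autoImplicit false

open FF Module Pool.Agent.W603.LV Pool.Agent.W602.GT Pool.Agent.W602.Cov Pool.Agent.W602.Cov.G
open Pool.Agent.W168.CG.PGR Pool.Agent.TH152.AC

namespace Pool.Agent.TH756.PR

variable {r N : ℕ} {n : Fin r → ℕ} {K : Type} [Field K] [Algebra ℂ K]

/-- the affine coordinates -/
noncomputable def aff (x : ∀ i, Fin (n i + 1) → K) (b : (i : Fin r) × Fin (n i)) : K :=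
  x b.1 b.2.succ / x b.1 0

/-- the affine coordinates -/
noncomputable def uu (e : ((i : Fin r) × Fin (n i)) ≃ Fin N) (x : ∀ i, Fin (n i + 1) → K)
    (b : Fin N) : K := aff x (e.symm b)

/-- the canonical form -/
noncomputable def om (e : ((i : Fin r) × Fin (n i)) ≃ Fin N) (D : Fin N → Derivation ℂ K K)
    (x : ∀ i, Fin (n i + 1) → K) : K :=
  (∏ i, x i 0 ^ (n i + 1)) * (Matrix.of fun a b : Fin N => D a (uu e x b)).det

variable (e : ((i : Fin r) × Fin (n i)) ≃ Fin N)

theorem uu_scale (x : ∀ i, Fin (n i + 1) → K) {lam : Fin r → K} (hlam : ∀ i, lam i ≠ 0) :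
    uu e (fun i j => lam i * x i j) = uu e x := by
  funext b
  exact mul_div_mul_left _ _ (hlam _)

theorem om_scale (D : Fin N → Derivation ℂ K K) (x : ∀ i, Fin (n i + 1) → K) {lam : Fin r → K}
    (hlam : ∀ i, lam i ≠ 0) :
    om e D (fun i j => lam i * x i j) = (∏ i, lam i ^ (n i + 1)) * om e D x := by
  unfold om
  rw [uu_scale e x hlam]
  simp only [mul_pow, Finset.prod_mul_distrib]
  ring

theorem om_lin (A : Matrix (Fin N) (Fin N) K) (D : Fin N → Derivation ℂ K K)
    (x : ∀ i, Fin (n i + 1) → K) :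
    om e (fun i => ∑ j, A i j • D j) x = A.det * om e D x := by
  unfold om
  have h1 : (Matrix.of fun a b : Fin N => (∑ j, A a j • D j) (uu e x b)) =
      A * Matrix.of fun a b : Fin N => D a (uu e x b) := by
    ext a b
    rw [Matrix.of_apply, Matrix.mul_apply]
    have h3 : ∀ s : Finset (Fin N), (∑ k ∈ s, A a k • D k) (uu e x b) =
        ∑ k ∈ s, A a k * D k (uu e x b) := by
      intro s
      induction s using Finset.induction_on with
      | empty => simp
      | insert a s ha ih =>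
        rw [Finset.sum_insert ha, Finset.sum_insert ha, Derivation.add_apply, ih,
          Derivation.smul_apply, smul_eq_mul]
    rw [h3]
    rfl
  rw [h1, Matrix.det_mul]
  ring

theorem uu_ne {x : ∀ i, Fin (n i + 1) → K} (hx : ∀ i j, x i j ≠ 0) (b : Fin N) : uu e x b ≠ 0 :=
  div_ne_zero (hx _ _) (hx _ _)

theorem om_eq_log (D : Fin N → Derivation ℂ K K) {x : ∀ i, Fin (n i + 1) → K}
    (hx : ∀ i j, x i j ≠ 0) :
    om e D x = (∏ i, ∏ j, x i j) *
      (Matrix.of fun a b : Fin N => D a (uu e x b) / uu e x b).det := by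
  unfold om
  have h1 : (Matrix.of fun a b : Fin N => D a (uu e x b)).det = (∏ b, uu e x b) *
      (Matrix.of fun a b : Fin N => D a (uu e x b) / uu e x b).det := by
    rw [← Matrix.det_mul_row]
    congr 1
    ext a b
    simp only [Matrix.of_apply]
    rw [mul_div_cancel₀ _ (uu_ne e hx b)]
  rw [h1, ← mul_assoc]
  congr 1
  have h2 : ∏ b, uu e x b = ∏ i, ∏ j : Fin (n i), x i j.succ / x i 0 := by
    rw [← Equiv.prod_comp e, Fintype.prod_sigma]
    refine Finset.prod_congr rfl fun i _ => Finset.prod_congr rfl fun j _ => ?_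
    unfold uu
    rw [Equiv.symm_apply_apply]
    rfl
  rw [h2, ← Finset.prod_mul_distrib]
  refine Finset.prod_congr rfl fun i _ => ?_
  rw [Fin.prod_univ_succ, Finset.prod_div_distrib, Finset.prod_const, Finset.card_univ,
    Fintype.card_fin, pow_succ]
  have h3 : x i 0 ^ n i ≠ 0 := pow_ne_zero _ (hx i 0)
  field_simp

theorem ord_prodprod (P : Place ℂ K) {x : ∀ i, Fin (n i + 1) → K} (hx : ∀ i j, x i j ≠ 0) :
    P.ord (∏ i, ∏ j, x i j) = ∑ i, ∑ j, P.ord (x i j) := by
  rw [ord_prod' P Finset.univ _ fun i _ => Finset.prod_ne_zero_iff.2 fun j _ => hx i j]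
  exact Finset.sum_congr rfl fun i _ => ord_prod' P Finset.univ _ fun j _ => hx i j

/-- the order of the canonical form, regular vector fields -/
theorem om_ge_reg (P : Place ℂ K) (D : Fin N → Derivation ℂ K K) (hD : ∀ a, DerReg P (D a))
    {x : ∀ i, Fin (n i + 1) → K} (hx : ∀ i j, x i j ≠ 0) :
    Ge P ((∑ i, ∑ j, P.ord (x i j)) - (1 : ℕ)) (om e D x) := by
  rw [om_eq_log e D hx, ← ord_prodprod P hx]
  have h1 := (ge_ord P (∏ i, ∏ j, x i j)).mul
    (Pool.Agent.W602.GT.det_log (P := P) D hD (uu e x) (uu_ne e hx))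
  simpa [sub_eq_add_neg] using h1

/-- the order of the canonical form, logarithmic vector fields -/
theorem om_ge_log (P : Place ℂ K) (D : Fin N → Derivation ℂ K K) (hD : ∀ a, DerLog P (D a))
    {x : ∀ i, Fin (n i + 1) → K} (hx : ∀ i j, x i j ≠ 0) :
    Ge P ((∑ i, ∑ j, P.ord (x i j)) - (0 : ℕ)) (om e D x) := by
  rw [om_eq_log e D hx, ← ord_prodprod P hx]
  have h0 : Ge P 0 (Matrix.of fun a b : Fin N => D a (uu e x b) / uu e x b).det := by
    refine ge_det P _ 0 (fun _ _ => 0) (fun i j => ?_) (fun σ => by simp)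
    exact hD i _
  have h1 := (ge_ord P (∏ i, ∏ j, x i j)).mul h0
  simpa using h1

/-- the order of the canonical form at the places away from the coordinate hyperplanes -/
theorem om_ge_unit (P : Place ℂ K) (D : Fin N → Derivation ℂ K K) (hD : ∀ a, DerReg P (D a))
    {x : ∀ i, Fin (n i + 1) → K} (hx : ∀ i j, x i j ≠ 0) (a : Fin r → ℤ)
    (ha : ∀ i j, P.ord (x i j) = a i) : Ge P (∑ i, ((n i : ℤ) + 1) * a i) (om e D x) := by
  unfold om
  have h0 : Ge P 0 (Matrix.of fun a b : Fin N => D a (uu e x b)).det := by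
    refine ge_det P _ 0 (fun _ _ => 0) (fun i j => ?_) (fun σ => by simp)
    refine hD i _ ?_
    rw [reg_iff_ge]
    unfold uu aff
    have h1 := ge_div (hx (e.symm j).1 0) (ge_ord P (x (e.symm j).1 (e.symm j).2.succ))
    rw [ha, ha, sub_self] at h1
    exact h1
  have h1 := (ge_ord P (∏ i, x i 0 ^ (n i + 1))).mul h0
  rw [ord_prod' P Finset.univ _ fun i _ => pow_ne_zero _ (hx i 0), add_zero] at h1
  refine h1.mono (le_of_eq ?_)
  refine Finset.sum_congr rfl fun i _ => ?_
  rw [P.ord_pow, ha]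
  push_cast
  ring

end Pool.Agent.TH756.PR
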