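import Pool.Agent.TH756.PR.Chg

/-!
The orders of the pluricanonical forms on a variety with a generically finite map to a product of
projective spaces.
-/

set_option autoImplicit false

open FF Module Pool.Agent.W603.LV Pool.Agent.W602.GT Pool.Agent.W602.Cov Pool.Agent.W602.Cov.G
open Pool.Agent.W168.CG.PGR Pool.Agent.TH152.AC Pool.Agent.TH756.AR

namespace Pool.Agent.TH756.PR

section factor

variable {n q : ℕ} {ℓ : Fin q → Form n} {K : Type} [Field K] [Algebra ℂ K]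

theorem factor (d : ℕ) (p : Bases ℓ → ℕ) (hp : ∀ F : Finset (Fin q), Proper ℓ F →
      d * (∑ B, p B * cnt B.1 F) + ∑ B, p B ≤ d * ((∑ B, p B) * rk ℓ F))
    (hspan : Submodule.span ℂ (Set.range ℓ) = ⊤) {x : Fin (n + 1) → K}
    (hx : ∀ i, lf (ℓ i) x ≠ 0) (P : Place ℂ K) :
    ∃ (a : ℤ) (v : Fin q → ℕ) (B' : Bases ℓ), (∀ i, P.ord (lf (ℓ i) x) = a + v i) ∧
      (∀ j, Ge P a (x j)) ∧ Submodule.span ℂ (ℓ '' {i | v i ≠ 0}) ≠ ⊤ ∧
      ∀ i, d * (∑ B, p B * ∑ a, v (B.1 a)) + (∑ B, p B) * v i ≤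
        d * ((∑ B, p B) * ∑ a, v (B'.1 a)) := by
  obtain ⟨B0⟩ := exists_bases hspan
  obtain ⟨i1, -, hmin⟩ := Finset.exists_min_image Finset.univ (fun i => P.ord (lf (ℓ i) x))
    ⟨B0.1 0, Finset.mem_univ _⟩
  obtain ⟨a, ha⟩ : ∃ a, a = P.ord (lf (ℓ i1) x) := ⟨_, rfl⟩
  let v : Fin q → ℕ := fun i => (P.ord (lf (ℓ i) x) - a).toNat
  have hvi : ∀ i, P.ord (lf (ℓ i) x) = a + v i := by
    intro i
    have h3 := hmin i (Finset.mem_univ i)
    have h4 : (v i : ℤ) = P.ord (lf (ℓ i) x) - a := by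
      show (((P.ord (lf (ℓ i) x) - a).toNat : ℕ) : ℤ) = _
      rw [Int.toNat_of_nonneg]
      rw [ha]
      linarith
    rw [h4]
    ring
  have hi1 : v i1 = 0 := by
    have := hvi i1
    omega
  have hreg : ∀ j, Ge P a (x j) := by
    intro j
    have h3 := ge_span P a (Set.range ℓ) x (by
      rintro _ ⟨i, rfl⟩
      right
      rw [hvi i]
      linarith [Int.natCast_nonneg (v i)]) (LinearMap.proj j) (by rw [hspan]; trivial)
    rwa [lf_proj] at h3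
  have hsp : Submodule.span ℂ (ℓ '' {i | v i ≠ 0}) ≠ ⊤ := by
    intro htop
    have h3 := ge_span P (a + 1) (ℓ '' {i | v i ≠ 0}) x (by
      rintro _ ⟨i, hi, rfl⟩
      right
      rw [hvi i]
      have : v i ≠ 0 := hi
      omega) (ℓ i1) (by rw [htop]; trivial)
    rcases h3 with h3 | h3
    · exact hx i1 h3
    · rw [hvi i1, hi1] at h3
      push_cast at h3
      linarith
  obtain ⟨B', hB'⟩ := ordersD d p hp (exists_bases hspan) v hsp
  exact ⟨a, v, B', hvi, hreg, hsp, hB'⟩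

end factor

variable {r N : ℕ} {n : Fin r → ℕ} {K : Type} [Field K] [Algebra ℂ K]
  (e : ((i : Fin r) × Fin (n i)) ≃ Fin N) {q : Fin r → ℕ} {ℓ : ∀ i, Fin (q i) → Form (n i)}

/-- the pluricanonical form -/
noncomputable def pp (ℓ : ∀ i, Fin (q i) → Form (n i)) (x : ∀ i, Fin (n i + 1) → K)
    (p : ∀ i, Bases (ℓ i) → ℕ) (t : Fin r → ℕ) (T : ℕ) (D : Fin N → Derivation ℂ K K) : K :=
  om e D x ^ T / ∏ i, den (ℓ i) (x i) (p i) (t i)

theorem dens_ne {x : ∀ i, Fin (n i + 1) → K} (hx : ∀ i k, lf (ℓ i k) (x i) ≠ 0)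
    (p : ∀ i, Bases (ℓ i) → ℕ) (t : Fin r → ℕ) : ∏ i, den (ℓ i) (x i) (p i) (t i) ≠ 0 :=
  Finset.prod_ne_zero_iff.2 fun i _ => den_ne (hx i) (p i) (t i)

theorem pp_pluri (x : ∀ i, Fin (n i + 1) → K) (p : ∀ i, Bases (ℓ i) → ℕ) (t : Fin r → ℕ)
    (T : ℕ) : IsPluri T (pp e ℓ x p t T) := by
  intro A D
  unfold pp
  rw [om_lin, mul_pow]
  ring

theorem pp_ord (d : Fin r → ℕ) (hd : ∀ i, 1 ≤ d i) (p : ∀ i, Bases (ℓ i) → ℕ)
    (hp : ∀ i, ∀ F : Finset (Fin (q i)), Proper (ℓ i) F →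
      d i * (∑ B, p i B * cnt B.1 F) + ∑ B, p i B ≤ d i * ((∑ B, p i B) * rk (ℓ i) F))
    (hspan : ∀ i, Submodule.span ℂ (Set.range (ℓ i)) = ⊤) (t : Fin r → ℕ) (T : ℕ)
    (hT : ∀ i, t i * ∑ B, p i B = T) {x : ∀ i, Fin (n i + 1) → K}
    (hlx : ∀ i k, lf (ℓ i k) (x i) ≠ 0) (hx0 : ∀ i, x i 0 ≠ 0)
    (hbas : IsTranscendenceBasis ℂ (uu e x)) (P : Place ℂ K)
    (D : Fin N → Derivation ℂ K K) (ε : ℕ)
    (h1 : ∀ f : ∀ i, Fin (n i + 1) → K, (∀ i j, f i j ≠ 0) →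
      Ge P ((∑ i, ∑ j, P.ord (f i j)) - ε) (om e D f))
    (h2 : ∀ (f : ∀ i, Fin (n i + 1) → K) (a : Fin r → ℤ), (∀ i j, f i j ≠ 0) →
      (∀ i j, P.ord (f i j) = a i) → Ge P (∑ i, ((n i : ℤ) + 1) * a i) (om e D f)) :
    ∃ (a : Fin r → ℤ) (v : ∀ i, Fin (q i) → ℕ),
      (∀ i k, P.ord (lf (ℓ i k) (x i)) = a i + v i k) ∧ (∀ i j, Ge P (a i) (x i j)) ∧
      (∀ i, Submodule.span ℂ (ℓ i '' {k | v i k ≠ 0}) ≠ ⊤) ∧
      ∃ c : ℤ, Ge P c (pp e ℓ x p t T D) ∧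
        (((∀ i, v i = 0) ∧ 0 ≤ c) ∨ ((∃ i, v i ≠ 0) ∧ ∀ k : ∀ i, Fin (q i),
          (T : ℚ) * ∑ i, (v i (k i) : ℚ) / d i ≤ c + ε * T)) := by
  choose a v B' hv hx hsp hB using fun i =>
    factor (d i) (p i) (hp i) (hspan i) (hlx i) P
  refine ⟨a, v, hv, hx, hsp, ?_⟩
  -- the coordinates of the bases
  obtain ⟨c, hc⟩ : ∃ c : ∀ i, Matrix (Fin (n i + 1)) (Fin (n i + 1)) ℂ,
    c = fun i => Matrix.of fun j l : Fin (n i + 1) => ℓ i ((B' i).1 j) (Pi.single l 1) :=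
    ⟨_, rfl⟩
  have hdet : ∀ i, (c i).det ≠ 0 := by
    intro i
    rw [hc]
    exact det_ne_zero (m := fun j => ℓ i ((B' i).1 j)) (B' i).2
  have hf : ∀ i j, chg c x i j = lf (ℓ i ((B' i).1 j)) (x i) := by
    intro i j
    rw [hc]
    rfl
  have hfne : ∀ i j, chg c x i j ≠ 0 := fun i j => by
    rw [hf]
    exact hlx i _
  have hchg := om_change e hx0 hbas c (fun i => hfne i 0) D
  have hprod : (∏ i, (c i).det) ≠ 0 := Finset.prod_ne_zero_iff.2 fun i _ => hdet i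
  have hback : ∀ L : ℤ, Ge P L (om e D (chg c x)) → Ge P L (om e D x) := by
    intro L hL
    rw [hchg] at hL
    have h4 := (Ge.const (P := P) (∏ i, (c i).det)⁻¹).mul hL
    rw [← mul_assoc, ← map_mul, inv_mul_cancel₀ hprod, map_one, one_mul, zero_add] at h4
    exact h4
  have hordf : ∀ i j, P.ord (chg c x i j) = a i + v i ((B' i).1 j) := fun i j => by
    rw [hf, hv]
  have hden : P.ord (∏ i, den (ℓ i) (x i) (p i) (t i)) =
      ∑ i, (t i : ℤ) * ∑ B, (p i B : ℤ) * ∑ b, (a i + v i (B.1 b)) := by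
    rw [ord_prod' P Finset.univ _ fun i _ => den_ne (hlx i) (p i) (t i)]
    refine Finset.sum_congr rfl fun i _ => ?_
    rw [ord_den P (hlx i)]
    simp only [hv]
  have hterm : ∀ i, (t i : ℤ) * ∑ B, (p i B : ℤ) * ∑ b, (a i + v i (B.1 b)) =
      T * (((n i : ℤ) + 1) * a i) + t i * ∑ B, (p i B : ℤ) * ∑ b, (v i (B.1 b) : ℤ) := by
    intro i
    have e1 : ∀ B : Bases (ℓ i), ∑ b, (a i + (v i (B.1 b) : ℤ)) =
        ((n i : ℤ) + 1) * a i + ∑ b, (v i (B.1 b) : ℤ) := by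
      intro B
      rw [Finset.sum_add_distrib, Finset.sum_const, Finset.card_univ, Fintype.card_fin]
      simp
    simp only [e1, mul_add, Finset.sum_add_distrib]
    rw [← Finset.sum_mul, ← mul_assoc (t i : ℤ), ← hT i]
    push_cast
    ring
  by_cases hv0 : ∀ i, v i = 0
  · have h5 : Ge P (∑ i, ((n i : ℤ) + 1) * a i) (om e D x) := by
      refine hback _ (h2 _ a hfne fun i j => ?_)
      rw [hordf, hv0 i]
      simp
    have h6 := ge_div (dens_ne hlx p t) (h5.pow T)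
    rw [hden] at h6
    refine ⟨_, h6, Or.inl ⟨hv0, ?_⟩⟩
    rw [Finset.sum_congr rfl fun i _ => hterm i]
    simp [hv0, Finset.mul_sum]
  · push Not at hv0
    have h5 := hback _ (h1 _ hfne)
    have h6 := ge_div (dens_ne hlx p t) (h5.pow T)
    rw [hden] at h6
    refine ⟨_, h6, Or.inr ⟨hv0, fun k => ?_⟩⟩
    -- the inequality for each factor
    have h7 : ∀ i, (T : ℚ) * ((v i (k i) : ℚ) / d i) ≤
        T * ∑ b, (v i ((B' i).1 b) : ℚ) - t i * ∑ B, (p i B : ℚ) * ∑ b, (v i (B.1 b) : ℚ) := by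
      intro i
      have h8 := hB i (k i)
      have h9 : (d i : ℚ) * (∑ B, (p i B : ℚ) * ∑ b, (v i (B.1 b) : ℚ)) +
          (∑ B, (p i B : ℚ)) * v i (k i) ≤
          d i * ((∑ B, (p i B : ℚ)) * ∑ b, (v i ((B' i).1 b) : ℚ)) := by
        exact_mod_cast h8
      have hdi : (0 : ℚ) < d i := by exact_mod_cast hd i
      have hTi : (T : ℚ) = t i * ∑ B, (p i B : ℚ) := by
        rw [← hT i]
        push_cast
        rfl
      have h10 := mul_le_mul_of_nonneg_left h9 (by positivity : (0 : ℚ) ≤ t i)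
      rw [mul_div_assoc', div_le_iff₀ hdi, hTi]
      nlinarith [h10]
    have h11 : (T : ℚ) * ∑ i, (v i (k i) : ℚ) / d i ≤ ∑ i, ((T : ℚ) *
        ∑ b, (v i ((B' i).1 b) : ℚ) - t i * ∑ B, (p i B : ℚ) * ∑ b, (v i (B.1 b) : ℚ)) := by
      rw [Finset.mul_sum]
      exact Finset.sum_le_sum fun i _ => h7 i
    refine h11.trans (le_of_eq ?_)
    simp only [hterm, hordf]
    have e2 : ∀ i, ∑ j : Fin (n i + 1), (a i + (v i ((B' i).1 j) : ℤ)) =
        ((n i : ℤ) + 1) * a i + ∑ b, (v i ((B' i).1 b) : ℤ) := by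
      intro i
      rw [Finset.sum_add_distrib, Finset.sum_const, Finset.card_univ, Fintype.card_fin]
      simp
    simp only [e2]
    push_cast
    simp only [Finset.sum_add_distrib, Finset.sum_sub_distrib, Finset.mul_sum, mul_add, mul_sub]
    ring

end Pool.Agent.TH756.PR
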